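import Pool.Agent.X225.Mc.Om
import Pool.Agent.X225.Mc.MT

/-!
# Structures interpretable over equality: model companions and model-complete cores

The structure `𝔅`.  Let `N` be a countably infinite set, and let every pair `{a, b} ⊂ N` have a countably
infinite set `I_ab`.  For every pair `{a, b}` and every pair `{m, n} ⊂ I_ab` there is a directed cycle of
length 4 whose points are alternately over `a` and over `b` (doubled, for the two orderings of `m, n`).
An automorphism that exchanges `a` and `b` and preserves the pair `{m, n}` has a square that is not the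
identity on this cycle.  An interpretation over equality gives involutions that exchange some `a` and
`b`, and an involution of `I_ab` preserves some pair `{m, n}`, so `𝔅` is not interpretable over equality.

The structure `𝔄`.  The set `I_ab` is the disjoint union of `I_(a,b)` and `I_(b,a)`, and only the cycles
over pairs in `I_(a,b)` or in `I_(b,a)` are kept.  This structure is interpretable over equality, is a
substructure of `𝔅`, and `𝔅` embeds in it (use `I_(a,b)` for `a < b`).  Since `𝔅` is homogeneous in a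
finite binary language with complements of all relations, it is the model companion and the
model-complete core of `𝔄`.
-/

universe w

namespace Pool.Agent.Results.MP_e44c77_lc.NotClosed

open FirstOrder X225.Mc Function

/-! ### Definitions -/

/-- The structure `M` (in a relational language) has a first-order interpretation over `(ℕ; =)` with
parameters from `A`: there are `d ≥ 1`, a definable set `D ⊆ ℕ ^ d` and a map from `D` onto `M` such that
the kernel of the map (an equivalence relation on `D`) and the preimages of all relations of `M` are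
definable. -/
def InterpretableOverEquality (L : FirstOrder.Language.{0, 0}) (M : Type) [L.Structure M]
    (A : Set ℕ) : Prop :=
  ∃ (d : ℕ) (D : Set (Fin d → ℕ)) (f : D → M), 1 ≤ d ∧ Surjective f ∧
    A.Definable Language.empty D ∧
    A.Definable Language.empty {s : Fin 2 × Fin d → ℕ |
      ∃ h : ∀ k, (fun i => s (k, i)) ∈ D, f ⟨_, h 0⟩ = f ⟨_, h 1⟩} ∧
    ∀ (n : ℕ) (R : L.Relations n), A.Definable Language.empty {s : Fin n × Fin d → ℕ |
      ∃ h : ∀ k, (fun i => s (k, i)) ∈ D, Language.Structure.RelMap R fun k => f ⟨_, h k⟩}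

/-- the structure `M` is a model-complete core: its endomorphisms preserve all first-order formulas -/
def IsModelCompleteCore (L : FirstOrder.Language.{0, 0}) (M : Type) [L.Structure M] : Prop :=
  ∀ (f : M →[L] M) (n : ℕ) (φ : L.Formula (Fin n)) (x : Fin n → M),
    φ.Realize x → φ.Realize (f ∘ x)

/-! ### The language -/

/-- the relation symbols -/
inductive Rl : ℕ → Type
  | mk (c : K) (b : Bool) : Rl 2

/-- the language: a binary relation symbol and a symbol for its complement for every name in `K` -/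
def LK : FirstOrder.Language.{0, 0} := ⟨fun _ => Empty, Rl⟩

instance : LK.IsRelational := fun _ => by
  change IsEmpty Empty
  infer_instance

/-- the symbols -/
def sym (c : K) (b : Bool) : LK.Relations 2 := Rl.mk c b

/-- the structure of a frame -/
def str {X : Type} (F : Fr X) : LK.Structure X where
  funMap := fun {_} f _ => Empty.elim f
  RelMap := fun {_} R => match R with
    | .mk c b => fun x => (F.cond c (x 0) (x 1) ↔ b = true)

/-- the structure `𝔅` -/
instance strB : LK.Structure Om := str FO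

theorem relMap_B (c : K) (b : Bool) (x : Fin 2 → Om) :
    Language.Structure.RelMap (sym c b) x ↔ (FO.cond c (x 0) (x 1) ↔ b = true) := Iff.rfl

/-- maps of frames are embeddings -/
def embOf {X Y : Type} {F : Fr X} {F' : Fr Y} {h : X → Y} (hh : F.Hom F' h) :
    @Language.Embedding LK X Y (str F) (str F') :=
  letI := str F
  letI := str F'
  { toFun := h
    inj' := hh.inj
    map_fun' := fun {_} f _ => Empty.elim f
    map_rel' := fun {_} R x => by
      cases R with
      | mk c b =>
        change (F'.cond c (h (x 0)) (h (x 1)) ↔ b = true) ↔ (F.cond c (x 0) (x 1) ↔ b = true)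
        rw [hh.cond] }

/-! ### Quantifier elimination for `𝔅` -/

/-- the type of a tuple -/
noncomputable def ty {n : ℕ} (x : Fin n → Om) : Fin n × Fin n × K → Bool :=
  open Classical in fun p => decide (FO.cond p.2.2 (x p.1) (x p.2.1))

theorem sameT_of_ty {n : ℕ} {x y : Fin n → Om} (h : ty x = ty y) : SameT x y := by
  intro i j c
  have h1 := congrFun h (i, j, c)
  unfold ty at h1
  simp only [decide_eq_decide] at h1
  exact h1

/-- the formula for a set of types -/
noncomputable def qf {n : ℕ} (T : Set (Fin n × Fin n × K → Bool)) : LK.Formula (Fin n) :=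
  Language.Formula.iSup fun t : T => Language.Formula.iInf fun p : Fin n × Fin n × K =>
    Language.Relations.formula₂ (sym p.2.2 (t.1 p)) (Language.Term.var p.1)
      (Language.Term.var p.2.1)

theorem realize_qf {n : ℕ} (T : Set (Fin n × Fin n × K → Bool)) (M : Type w) [LK.Structure M]
    (x : Fin n → M) : (qf T).Realize x ↔ ∃ t ∈ T, ∀ p : Fin n × Fin n × K,
      Language.Structure.RelMap (sym p.2.2 (t p)) ![x p.1, x p.2.1] := by
  unfold qf
  rw [Language.Formula.realize_iSup]
  simp only [Language.Formula.realize_iInf, Language.Formula.realize_rel₂,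
    Language.Term.realize_var, Subtype.exists, exists_prop]

theorem qf_B {n : ℕ} (T : Set (Fin n × Fin n × K → Bool)) (x : Fin n → Om) :
    (qf T).Realize x ↔ ty x ∈ T := by
  rw [realize_qf]
  have h1 : ∀ t : Fin n × Fin n × K → Bool, (∀ p : Fin n × Fin n × K,
      Language.Structure.RelMap (sym p.2.2 (t p)) ![x p.1, x p.2.1]) ↔ ty x = t := by
    intro t
    constructor
    · intro h
      funext p
      have h1 := (relMap_B _ _ _).1 (h p)
      unfold ty
      change (FO.cond p.2.2 (x p.1) (x p.2.1) ↔ t p = true) at h1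
      cases ht : t p with
      | true =>
        rw [ht] at h1
        simpa using h1
      | false =>
        rw [ht] at h1
        simpa using h1
    · rintro rfl p
      refine (relMap_B _ _ _).2 ?_
      change (FO.cond p.2.2 (x p.1) (x p.2.1) ↔ ty x p = true)
      unfold ty
      simp
  constructor
  · rintro ⟨t, ht, h⟩
    rw [(h1 t).1 h]
    exact ht
  · intro h
    exact ⟨_, h, (h1 _).2 rfl⟩

/-- formulas are invariant under maps onto -/
theorem realize_of_hom {n : ℕ} (φ : LK.Formula (Fin n)) {g : Om → Om} (hg : FO.Hom FO g)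
    (hs : Surjective g) (x : Fin n → Om) : φ.Realize (g ∘ x) ↔ φ.Realize x := by
  let e : Om ≃[LK] Om :=
    { toEquiv := Equiv.ofBijective g ⟨hg.inj, hs⟩
      map_fun' := fun {_} f _ => Empty.elim f
      map_rel' := fun {_} R x => (embOf hg).map_rel R x }
  exact Language.StrongHomClass.realize_formula e φ

theorem qe {n : ℕ} (φ : LK.Formula (Fin n)) :
    ∀ x : Fin n → Om, φ.Realize x ↔ (qf {t | ∃ y : Fin n → Om, φ.Realize y ∧ ty y = t}).Realize x := by
  intro x
  rw [qf_B]
  constructor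
  · intro h
    exact ⟨x, h, rfl⟩
  · rintro ⟨y, hy, hyx⟩
    obtain ⟨g, hg, hs, hgi⟩ := extend n y x (sameT_of_ty hyx)
    have h1 : g ∘ y = x := funext hgi
    rw [← h1]
    exact (realize_of_hom φ hg hs y).2 hy

theorem modelComplete_B : ModelComplete.{w} (LK.completeTheory Om) := by
  refine modelComplete_of Om fun n φ => ⟨_, qe φ, ?_⟩
  intro M N _ _ f x
  rw [realize_qf, realize_qf]
  refine exists_congr fun t => and_congr_right fun _ => forall_congr' fun p => ?_
  have h1 : (![(f ∘ x) p.1, (f ∘ x) p.2.1] : Fin 2 → N) = f ∘ ![x p.1, x p.2.1] := by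
    funext i
    fin_cases i <;> rfl
  rw [h1]
  exact f.map_rel _ _

theorem core_B : IsModelCompleteCore LK Om := by
  intro f n φ x hx
  rw [qe, realize_qf] at hx ⊢
  obtain ⟨t, ht, h⟩ := hx
  refine ⟨t, ht, fun p => ?_⟩
  have h1 : (![(f ∘ x) p.1, (f ∘ x) p.2.1] : Fin 2 → Om) = f ∘ ![x p.1, x p.2.1] := by
    funext i
    fin_cases i <;> rfl
  rw [h1]
  exact f.map_rel _ _ (h p)

/-! ### The structure `𝔄` -/

/-- the domain of `𝔄` -/
@[ext]
structure OA : Type where
  p : ℕ
  q : ℕ
  m : ℕ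
  n : ℕ
  s : Bool
  z : ZMod 2
  hpq : p ≠ q
  hmn : m ≠ n

/-- the frame of `𝔄` -/
def FA : Fr OA where
  S x := ⟨x.p, x.q, x.m, x.n, !x.s, x.z + (if x.s then 1 else 0), x.hpq, x.hmn⟩
  W x := ⟨x.p, x.q, x.n, x.m, x.s, x.z, x.hpq, x.hmn.symm⟩
  a x := if x.s then x.q else x.p
  I x y := x.m = y.m ∧ x.p = y.p ∧ x.q = y.q

instance strA : LK.Structure OA := str FA

/-- the embedding of `𝔅` in `𝔄` -/
def eBA (x : Om) : OA :=
  if x.a < x.b then ⟨x.a, x.b, x.m, x.n, false, x.z, x.hab, x.hmn⟩
  else ⟨x.b, x.a, x.m, x.n, true, x.z, x.hab.symm, x.hmn⟩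

theorem eBA_lt {x : Om} (h : x.a < x.b) :
    eBA x = ⟨x.a, x.b, x.m, x.n, false, x.z, x.hab, x.hmn⟩ := if_pos h

theorem eBA_gt {x : Om} (h : x.b < x.a) :
    eBA x = ⟨x.b, x.a, x.m, x.n, true, x.z, x.hab.symm, x.hmn⟩ := if_neg (by omega)

theorem eBA_hom : FO.Hom FA eBA where
  inj x y h := by
    rcases lt_or_gt_of_ne x.hab with hx | hx <;> rcases lt_or_gt_of_ne y.hab with hy | hy
    · rw [eBA_lt hx, eBA_lt hy, OA.mk.injEq] at h
      exact Om.ext h.1 h.2.1 h.2.2.1 h.2.2.2.1 h.2.2.2.2.2
    · rw [eBA_lt hx, eBA_gt hy, OA.mk.injEq] at h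
      exact absurd h.2.2.2.2.1 (by simp)
    · rw [eBA_gt hx, eBA_lt hy, OA.mk.injEq] at h
      exact absurd h.2.2.2.2.1 (by simp)
    · rw [eBA_gt hx, eBA_gt hy, OA.mk.injEq] at h
      exact Om.ext h.2.1 h.1 h.2.2.1 h.2.2.2.1 h.2.2.2.2.2
  S x := by
    rcases lt_or_gt_of_ne x.hab with hx | hx
    · have h1 : th x.a x.b = 0 := if_neg (by omega)
      rw [eBA_lt hx, FO_S, eBA_gt hx]
      refine OA.ext rfl rfl rfl rfl rfl ?_
      change x.z + th x.a x.b = x.z + (if false = true then 1 else 0)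
      rw [h1]
      rfl
    · have h1 : th x.a x.b = 1 := if_pos hx
      rw [eBA_gt hx, FO_S, eBA_lt hx]
      refine OA.ext rfl rfl rfl rfl rfl ?_
      change x.z + th x.a x.b = x.z + (if true = true then 1 else 0)
      rw [h1]
      rfl
  W x := by
    rcases lt_or_gt_of_ne x.hab with hx | hx
    · rw [eBA_lt (x := FO.W x) hx, eBA_lt hx]
      rfl
    · rw [eBA_gt (x := FO.W x) hx, eBA_gt hx]
      rfl
  a x y := by
    have h1 : ∀ x : Om, FA.a (eBA x) = x.a := by
      intro x
      rcases lt_or_gt_of_ne x.hab with hx | hx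
      · rw [eBA_lt hx]
        rfl
      · rw [eBA_gt hx]
        rfl
    rw [h1, h1]
    exact Iff.rfl
  I x y := by
    change (x.m = y.m ∧ ((x.a = y.a ∧ x.b = y.b) ∨ (x.a = y.b ∧ x.b = y.a))) ↔ _
    rcases lt_or_gt_of_ne x.hab with hx | hx <;> rcases lt_or_gt_of_ne y.hab with hy | hy
    · rw [eBA_lt hx, eBA_lt hy]
      change _ ↔ (x.m = y.m ∧ x.a = y.a ∧ x.b = y.b)
      refine and_congr_right fun _ => ?_
      omega
    · rw [eBA_lt hx, eBA_gt hy]
      change _ ↔ (x.m = y.m ∧ x.a = y.b ∧ x.b = y.a)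
      refine and_congr_right fun _ => ?_
      omega
    · rw [eBA_gt hx, eBA_lt hy]
      change _ ↔ (x.m = y.m ∧ x.b = y.a ∧ x.a = y.b)
      refine and_congr_right fun _ => ?_
      omega
    · rw [eBA_gt hx, eBA_gt hy]
      change _ ↔ (x.m = y.m ∧ x.b = y.b ∧ x.a = y.a)
      refine and_congr_right fun _ => ?_
      omega

/-- the codes of the elements of `I_(p,q)` in `I_pq` -/
def cd (p q m : ℕ) : ℕ := 2 * m + (if p < q then 0 else 1)

theorem cd_inj {p q m m' : ℕ} (h : cd p q m = cd p q m') : m = m' := by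
  unfold cd at h
  omega

/-- the embedding of `𝔄` in `𝔅` -/
def eAB (x : OA) : Om :=
  if x.s then FO.S ⟨x.p, x.q, cd x.p x.q x.m, cd x.p x.q x.n, x.z, x.hpq, fun h => x.hmn (cd_inj h)⟩
  else ⟨x.p, x.q, cd x.p x.q x.m, cd x.p x.q x.n, x.z, x.hpq, fun h => x.hmn (cd_inj h)⟩

theorem eAB_a (x : OA) : (eAB x).a = FA.a x := by
  unfold eAB
  change _ = if x.s = true then x.q else x.p
  by_cases h : x.s = true
  · rw [if_pos h, if_pos h]
    rfl
  · rw [if_neg h, if_neg h]

theorem eAB_b (x : OA) : (eAB x).b = if x.s = true then x.p else x.q := by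
  unfold eAB
  by_cases h : x.s = true
  · rw [if_pos h, if_pos h]
    rfl
  · rw [if_neg h, if_neg h]

theorem eAB_m (x : OA) : (eAB x).m = cd x.p x.q x.m := by
  unfold eAB
  split_ifs
  · rfl
  · rfl

theorem eAB_n (x : OA) : (eAB x).n = cd x.p x.q x.n := by
  unfold eAB
  split_ifs
  · rfl
  · rfl

theorem eAB_z (x : OA) : (eAB x).z = x.z + (if x.s = true then th x.p x.q else 0) := by
  unfold eAB
  by_cases h : x.s = true
  · rw [if_pos h, if_pos h]
    rfl
  · rw [if_neg h, if_neg h, add_zero]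

/-- the pair and the element determine the half -/
theorem cd_pair {p q m p' q' m' : ℕ} (hpq : p ≠ q) (h : cd p q m = cd p' q' m')
    (h' : (p = p' ∧ q = q') ∨ (p = q' ∧ q = p')) : p = p' ∧ q = q' ∧ m = m' := by
  rcases h' with ⟨h1, h2⟩ | ⟨h1, h2⟩
  · subst h1 h2
    exact ⟨rfl, rfl, cd_inj h⟩
  · exfalso
    subst h1 h2
    unfold cd at h
    rcases lt_or_gt_of_ne hpq with h3 | h3
    · rw [if_pos h3, if_neg (by omega)] at h
      omega
    · rw [if_neg (by omega), if_pos h3] at h
      omega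

theorem eAB_pair (x y : OA) :
    (((eAB x).a = (eAB y).a ∧ (eAB x).b = (eAB y).b) ∨
      ((eAB x).a = (eAB y).b ∧ (eAB x).b = (eAB y).a)) ↔
    ((x.p = y.p ∧ x.q = y.q) ∨ (x.p = y.q ∧ x.q = y.p)) := by
  rw [eAB_a, eAB_b, eAB_a, eAB_b]
  change (((if x.s = true then x.q else x.p) = (if y.s = true then y.q else y.p) ∧ _) ∨
    ((if x.s = true then x.q else x.p) = _ ∧ _ = (if y.s = true then y.q else y.p))) ↔ _
  split_ifs <;> omega

theorem eAB_hom : FA.Hom FO eAB where
  inj x y h := by
    have h1 := congrArg Om.a h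
    have h2 := congrArg Om.b h
    have h3 := congrArg Om.m h
    have h4 := congrArg Om.n h
    have h5 := congrArg Om.z h
    rw [eAB_m, eAB_m] at h3
    obtain ⟨h6, h7, h8⟩ := cd_pair x.hpq h3 ((eAB_pair x y).1 (Or.inl ⟨h1, h2⟩))
    rw [eAB_n, eAB_n, h6, h7] at h4
    have h9 := cd_inj h4
    rw [eAB_a, eAB_a] at h1
    change (if x.s = true then x.q else x.p) = (if y.s = true then y.q else y.p) at h1
    have h10 : x.s = y.s := by
      have hy := y.hpq
      cases hx : x.s <;> cases hy' : y.s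
      · rfl
      · rw [hx, hy', h6] at h1
        simp at h1
        exact absurd h1 hy
      · rw [hx, hy', h7] at h1
        simp at h1
        exact absurd h1.symm hy
      · rfl
    rw [eAB_z, eAB_z, h10, h6, h7] at h5
    exact OA.ext h6 h7 h8 h9 h10 (add_right_cancel h5)
  S x := by
    cases hs : x.s with
    | false =>
      refine Om.ext ?_ ?_ ?_ ?_ ?_
      · rw [eAB_a]
        change (if (!x.s) = true then x.q else x.p) = (eAB x).b
        rw [eAB_b, hs]
        rfl
      · rw [eAB_b]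
        change (if (!x.s) = true then x.p else x.q) = (eAB x).a
        rw [eAB_a]
        change _ = if x.s = true then x.q else x.p
        rw [hs]
        rfl
      · rw [eAB_m]
        exact (eAB_m x).symm
      · rw [eAB_n]
        exact (eAB_n x).symm
      · rw [eAB_z]
        change x.z + (if x.s = true then 1 else 0) + (if (!x.s) = true then th x.p x.q else 0) =
          (eAB x).z + th (eAB x).a (eAB x).b
        rw [eAB_z, eAB_a, eAB_b]
        change _ = _ + th (if x.s = true then x.q else x.p) _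
        rw [hs]
        simp
    | true =>
      refine Om.ext ?_ ?_ ?_ ?_ ?_
      · rw [eAB_a]
        change (if (!x.s) = true then x.q else x.p) = (eAB x).b
        rw [eAB_b, hs]
        rfl
      · rw [eAB_b]
        change (if (!x.s) = true then x.p else x.q) = (eAB x).a
        rw [eAB_a]
        change _ = if x.s = true then x.q else x.p
        rw [hs]
        rfl
      · rw [eAB_m]
        exact (eAB_m x).symm
      · rw [eAB_n]
        exact (eAB_n x).symm
      · rw [eAB_z]
        change x.z + (if x.s = true then 1 else 0) + (if (!x.s) = true then th x.p x.q else 0) =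
          (eAB x).z + th (eAB x).a (eAB x).b
        rw [eAB_z, eAB_a, eAB_b]
        change _ = _ + th (if x.s = true then x.q else x.p) _
        rw [hs]
        simp only [Bool.not_true, if_true, Bool.false_eq_true, if_false, add_zero]
        rw [add_assoc, th_add x.hpq]
  W x := by
    refine Om.ext ?_ ?_ ?_ ?_ ?_
    · rw [eAB_a]
      exact (eAB_a x).symm
    · rw [eAB_b]
      exact (eAB_b x).symm
    · rw [eAB_m]
      exact (eAB_n x).symm
    · rw [eAB_n]
      exact (eAB_m x).symm
    · rw [eAB_z]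
      exact (eAB_z x).symm
  a x y := by
    change _ ↔ (eAB x).a = (eAB y).a
    rw [eAB_a, eAB_a]
  I x y := by
    change (x.m = y.m ∧ x.p = y.p ∧ x.q = y.q) ↔ ((eAB x).m = (eAB y).m ∧ _)
    rw [eAB_pair, eAB_m, eAB_m]
    constructor
    · rintro ⟨h1, h2, h3⟩
      exact ⟨by rw [h1, h2, h3], Or.inl ⟨h2, h3⟩⟩
    · rintro ⟨h1, h2⟩
      obtain ⟨h3, h4, h5⟩ := cd_pair x.hpq h1 h2
      exact ⟨h5, h3, h4⟩

/-! ### The interpretation of `𝔄` -/

/-- the action of permutations on `𝔄` -/
def actA (τ : Equiv.Perm ℕ) (x : OA) : OA :=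
  ⟨τ x.p, τ x.q, τ x.m, τ x.n, x.s, x.z, fun h => x.hpq (τ.injective h),
    fun h => x.hmn (τ.injective h)⟩

theorem actA_hom (τ : Equiv.Perm ℕ) : FA.Hom FA (actA τ) where
  inj x y h := by
    unfold actA at h
    rw [OA.mk.injEq] at h
    exact OA.ext (τ.injective h.1) (τ.injective h.2.1) (τ.injective h.2.2.1)
      (τ.injective h.2.2.2.1) h.2.2.2.2.1 h.2.2.2.2.2
  S x := rfl
  W x := rfl
  a x y := by
    have h1 : ∀ x, FA.a (actA τ x) = τ (FA.a x) := by
      intro x
      change (if x.s = true then τ x.q else τ x.p) = τ (if x.s = true then x.q else x.p)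
      split_ifs <;> rfl
    rw [h1, h1, τ.injective.eq_iff]
  I x y := by
    change _ ↔ (τ x.m = τ y.m ∧ τ x.p = τ y.p ∧ τ x.q = τ y.q)
    rw [τ.injective.eq_iff, τ.injective.eq_iff, τ.injective.eq_iff]
    exact Iff.rfl

/-- the domain of the interpretation -/
def DA : Set (Fin 8 → ℕ) := {s | s 0 ≠ s 1 ∧ s 2 ≠ s 3}

/-- the coordinate map -/
noncomputable def fA (s : DA) : OA :=
  open Classical in
  ⟨s.1 0, s.1 1, s.1 2, s.1 3, decide (s.1 4 = s.1 5), if s.1 6 = s.1 7 then 1 else 0, s.2.1, s.2.2⟩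

theorem mem_DA (τ : Equiv.Perm ℕ) {s : Fin 8 → ℕ} (hs : s ∈ DA) : (fun i => τ (s i)) ∈ DA :=
  ⟨fun h => hs.1 (τ.injective h), fun h => hs.2 (τ.injective h)⟩

theorem fA_act (τ : Equiv.Perm ℕ) (s : DA) : fA ⟨_, mem_DA τ s.2⟩ = actA τ (fA s) := by
  refine OA.ext rfl rfl rfl rfl ?_ ?_
  · change decide (τ (s.1 4) = τ (s.1 5)) = decide (s.1 4 = s.1 5)
    rw [decide_eq_decide]
    exact τ.injective.eq_iff
  · change (if τ (s.1 6) = τ (s.1 7) then (1 : ZMod 2) else 0) = if s.1 6 = s.1 7 then 1 else 0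
    simp only [τ.injective.eq_iff]

theorem fA_surj : Surjective fA := by
  intro x
  refine ⟨⟨![x.p, x.q, x.m, x.n, 0, if x.s then 0 else 1, 0, if x.z = 1 then 0 else 1],
    x.hpq, x.hmn⟩, ?_⟩
  refine OA.ext rfl rfl rfl rfl ?_ ?_
  · change decide ((0 : ℕ) = if x.s = true then 0 else 1) = x.s
    cases x.s <;> simp
  · change (if (0 : ℕ) = (if x.z = 1 then 0 else 1) then (1 : ZMod 2) else 0) = x.z
    generalize x.z = z
    revert z
    decide

theorem interp_A : InterpretableOverEquality LK OA ∅ := by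
  refine ⟨8, DA, fA, by norm_num, fA_surj, ?_, ?_, ?_⟩
  · exact definable_of_inv ∅ DA (fun σ s hs => mem_DA σ hs)
      fun s s' h => exists_perm' s s' h
  · refine definable_of_inv ∅ _ ?_ fun s s' h => exists_perm' s s' h
    rintro σ s ⟨h, hs⟩
    refine ⟨fun k => mem_DA σ (h k), ?_⟩
    have h0 := fA_act σ ⟨_, h 0⟩
    have h1 := fA_act σ ⟨_, h 1⟩
    exact h0.trans ((congrArg (actA σ) hs).trans h1.symm)
  · intro n R
    refine definable_of_inv ∅ _ ?_ fun s s' h => exists_perm' s s' h
    rintro σ s ⟨h, hs⟩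
    refine ⟨fun k => mem_DA σ (h k), ?_⟩
    have h0 : (fun k => fA ⟨_, mem_DA σ (h k)⟩) = actA σ ∘ fun k => fA ⟨_, h k⟩ :=
      funext fun k => fA_act σ ⟨_, h k⟩
    have h1 : Language.Structure.RelMap R (actA σ ∘ fun k => fA ⟨_, h k⟩) :=
      ((embOf (actA_hom σ)).map_rel R _).2 hs
    rw [← h0] at h1
    exact h1

/-! ### `𝔅` is not interpretable over equality -/

/-- no involution moves a side -/
theorem no_involution (h : Om → Om) (hinv : ∀ x, h (h x) = x)
    (hc : ∀ c x y, FO.cond c x y → FO.cond c (h x) (h y)) (x : Om) : (h x).a = x.a := by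
  have hS : ∀ x, h (FO.S x) = FO.S (h x) := fun x => hc (.oo 1 0) x (FO.S x) rfl
  have hW : ∀ x, h (FO.W x) = FO.W (h x) := fun x => hc (.oo 0 1) x (FO.W x) rfl
  have ha : ∀ x y : Om, x.a = y.a → (h x).a = (h y).a := fun x y => hc (.nn 0 0) x y
  have hI : ∀ x y : Om, FO.I x y → FO.I (h x) (h y) := fun x y => hc (.ii 0 0) x y
  by_contra hne
  obtain ⟨a, ha'⟩ : ∃ a, a = x.a := ⟨_, rfl⟩
  obtain ⟨b, hb'⟩ : ∃ b, b = (h x).a := ⟨_, rfl⟩
  have hab : a ≠ b := by
    rw [ha', hb']
    exact fun h => hne h.symm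
  -- points over the pair
  have key : ∀ w : Om, w.a = a → w.b = b → (h w).a = b ∧ (h w).b = a := by
    intro w h1 h2
    constructor
    · rw [ha w x (h1.trans ha'), hb']
    · have h3 : (h w).b = (FO.S (h w)).a := rfl
      rw [h3, ← hS]
      have h4 : (FO.S w).a = (h x).a := by
        change w.b = _
        rw [h2, hb']
      rw [ha _ _ h4, hinv, ha']
  let P : ∀ m n : ℕ, m ≠ n → Om := fun m n hmn => ⟨a, b, m, n, 0, hab, hmn⟩
  -- the action on the elements
  have helt : ∀ m n n' (hmn : m ≠ n) (hmn' : m ≠ n'), (h (P m n hmn)).m = (h (P m n' hmn')).m := by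
    intro m n n' hmn hmn'
    exact (hI (P m n hmn) (P m n' hmn') ⟨rfl, Or.inl ⟨rfl, rfl⟩⟩).1
  have hsw : ∀ m n (hmn : m ≠ n), (h (P m n hmn)).n = (h (P n m hmn.symm)).m := by
    intro m n hmn
    have h1 : (h (P m n hmn)).n = (FO.W (h (P m n hmn))).m := rfl
    rw [h1, ← hW]
    rfl
  -- the exceptional point: `h w` over the exchanged pair and the same two elements
  have hfin : ∀ m n (hmn : m ≠ n), ((h (P m n hmn)).m = m ∧ (h (P m n hmn)).n = n) ∨
      ((h (P m n hmn)).m = n ∧ (h (P m n hmn)).n = m) → False := by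
    intro m n hmn hcase
    obtain ⟨w, hw⟩ : ∃ w, w = P m n hmn := ⟨_, rfl⟩
    rw [← hw] at hcase
    have hwa : w.a = a := by rw [hw]
    have hwb : w.b = b := by rw [hw]
    have hwm : w.m = m := by rw [hw]
    have hwn : w.n = n := by rw [hw]
    obtain ⟨k1, k2⟩ := key w hwa hwb
    have hz : ∀ s t : ZMod 2, s = t ∨ s = t + 1 := by decide
    have hSS : ∀ x : Om, FO.S (FO.S x) ≠ x := by
      intro x hx
      have h1 := congrArg Om.z hx
      rw [FO_SS] at h1
      change x.z + 1 = x.z at h1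
      have h2 : ∀ s : ZMod 2, s + 1 ≠ s := by decide
      exact h2 _ h1
    have hSW : ∀ x : Om, FO.S (FO.W x) = FO.W (FO.S x) := fun _ => rfl
    have hWW : ∀ x : Om, FO.W (FO.W x) = x := fun _ => rfl
    have hS4 : ∀ x : Om, FO.S (FO.S (FO.S (FO.S x))) = x := by
      intro x
      rw [FO_SS (FO.S (FO.S x)), FO_SS]
      refine Om.ext rfl rfl rfl rfl ?_
      change x.z + 1 + 1 = x.z
      have h2 : ∀ s : ZMod 2, s + 1 + 1 = s := by decide
      exact h2 _
    rcases hcase with ⟨h1, h2⟩ | ⟨h1, h2⟩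
    · -- `h w = S w` or `h w = S³ w`
      rcases hz (h w).z (FO.S w).z with h3 | h3
      · have h4 : h w = FO.S w := Om.ext (k1.trans hwb.symm) (k2.trans hwa.symm)
          (h1.trans hwm.symm) (h2.trans hwn.symm) h3
        have h5 := hinv w
        rw [h4, hS, h4] at h5
        exact hSS w h5
      · have h4 : h w = FO.S (FO.S (FO.S w)) := by
          rw [FO_SS (FO.S w)]
          exact Om.ext (k1.trans hwb.symm) (k2.trans hwa.symm)
            (h1.trans hwm.symm) (h2.trans hwn.symm) h3
        have h5 := hinv w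
        rw [h4, hS, hS, hS, h4, hS4] at h5
        exact hSS w h5
    · rcases hz (h w).z (FO.S w).z with h3 | h3
      · have h4 : h w = FO.W (FO.S w) := Om.ext (k1.trans hwb.symm) (k2.trans hwa.symm)
          (h1.trans hwn.symm) (h2.trans hwm.symm) h3
        have h5 := hinv w
        rw [h4, hW, hS, h4, hSW, hWW] at h5
        exact hSS w h5
      · have h4 : h w = FO.W (FO.S (FO.S (FO.S w))) := by
          rw [FO_SS (FO.S w)]
          exact Om.ext (k1.trans hwb.symm) (k2.trans hwa.symm)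
            (h1.trans hwn.symm) (h2.trans hwm.symm) h3
        have h5 := hinv w
        rw [h4, hW, hS, hS, hS, h4, hSW, hSW, hSW, hWW, hS4] at h5
        exact hSS w h5
  -- the involution on the elements
  have hel2 : ∀ m n (hmn : m ≠ n) m' , (h (P m n hmn)).m = m' → ∀ n' (hmn' : m' ≠ n'),
      (h (P m' n' hmn')).m = m := by
    intro m n hmn m' hm' n' hmn'
    have h1 := key (P m n hmn) rfl rfl
    have h2 : FO.I (P m' n' hmn') (h (P m n hmn)) := ⟨hm'.symm, Or.inr ⟨h1.2.symm, h1.1.symm⟩⟩
    have h3 := hI _ _ h2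
    rw [hinv] at h3
    exact h3.1
  obtain ⟨m0, hm0⟩ : ∃ m0, m0 = (h (P 0 1 (by norm_num))).m := ⟨_, rfl⟩
  by_cases h0 : m0 = 0
  · -- `0` is fixed
    obtain ⟨m1, hm1⟩ : ∃ m1, m1 = (h (P 1 0 (by norm_num))).m := ⟨_, rfl⟩
    by_cases h1 : m1 = 1
    · apply hfin 0 1 (by norm_num)
      left
      refine ⟨hm0.symm.trans h0, ?_⟩
      rw [hsw]
      exact hm1.symm.trans h1
    · have h2 := hel2 1 0 (by norm_num) m1 hm1.symm 1 h1
      apply hfin 1 m1 (fun h => h1 h.symm)
      right
      refine ⟨?_, ?_⟩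
      · rw [helt 1 m1 0 _ (by norm_num)]
        exact hm1.symm
      · rw [hsw]
        exact h2
  · have h2 := hel2 0 1 (by norm_num) m0 hm0.symm 0 h0
    apply hfin 0 m0 (fun h => h0 h.symm)
    right
    refine ⟨?_, ?_⟩
    · rw [helt 0 m0 1 _ (by norm_num)]
      exact hm0.symm
    · rw [hsw]
      exact h2

theorem not_interp_B (A : Set ℕ) (hA : A.Finite) : ¬ InterpretableOverEquality LK Om A := by
  classical
  rintro ⟨d, D, f, -, hf, hD, hE, hR⟩
  -- permutations act
  have hDi : ∀ τ : Equiv.Perm ℕ, (∀ a ∈ A, τ a = a) → ∀ s ∈ D, (fun i => τ (s i)) ∈ D :=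
    fun τ hτ s hs => (inv_of_definable hD τ hτ s).2 hs
  have hEi : ∀ (τ : Equiv.Perm ℕ) (hτ : ∀ a ∈ A, τ a = a) (s s' : D), f s = f s' →
      f ⟨_, hDi τ hτ s.1 s.2⟩ = f ⟨_, hDi τ hτ s'.1 s'.2⟩ := by
    intro τ hτ s s' hss
    have h1 := (inv_of_definable hE τ hτ fun p => (if p.1 = 0 then s.1 else s'.1) p.2).2
      ⟨fun k => by
        fin_cases k
        · exact s.2
        · exact s'.2, hss⟩
    obtain ⟨h2, h3⟩ := h1
    exact h3
  have hRi : ∀ (τ : Equiv.Perm ℕ) (hτ : ∀ a ∈ A, τ a = a) (c : K) (s s' : D),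
      FO.cond c (f s) (f s') →
      FO.cond c (f ⟨_, hDi τ hτ s.1 s.2⟩) (f ⟨_, hDi τ hτ s'.1 s'.2⟩) := by
    intro τ hτ c s s' hss
    have h1 := (inv_of_definable (hR 2 (sym c true)) τ hτ
      fun p => (if p.1 = 0 then s.1 else s'.1) p.2).2
      ⟨fun k => by
        fin_cases k
        · exact s.2
        · exact s'.2, by
        rw [relMap_B]
        exact ⟨fun _ => rfl, fun _ => hss⟩⟩
    obtain ⟨h2, h3⟩ := h1
    rw [relMap_B] at h3
    exact h3.2 rfl
  choose g hg using hf
  -- transpositions do not move sides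
  have hswap : ∀ i j, i ∉ A → j ∉ A → ∀ s : D, ∀ hs : (fun k => Equiv.swap i j (s.1 k)) ∈ D,
      (f ⟨_, hs⟩).a = (f s).a := by
    intro i j hi hj s hs
    have hτ : ∀ a ∈ A, Equiv.swap i j a = a := fun a ha =>
      Equiv.swap_apply_of_ne_of_ne (fun h => hi (h ▸ ha)) (fun h => hj (h ▸ ha))
    let h : Om → Om := fun x => f ⟨_, hDi _ hτ (g x).1 (g x).2⟩
    have hh : ∀ s : D, h (f s) = f ⟨_, hDi _ hτ s.1 s.2⟩ := by
      intro s
      exact hEi _ hτ (g (f s)) s (hg _)
    have hinv : ∀ x, h (h x) = x := by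
      intro x
      have h1 : h x = f ⟨_, hDi _ hτ (g x).1 (g x).2⟩ := rfl
      rw [h1, hh]
      have h2 : (⟨fun k => Equiv.swap i j ((fun k => Equiv.swap i j ((g x).1 k)) k),
          hDi _ hτ _ (hDi _ hτ (g x).1 (g x).2)⟩ : D) = g x := by
        apply Subtype.ext
        funext k
        exact Equiv.swap_apply_self _ _ _
      exact (congrArg f h2).trans (hg x)
    have hc : ∀ c x y, FO.cond c x y → FO.cond c (h x) (h y) := by
      intro c x y hxy
      refine hRi _ hτ c (g x) (g y) ?_
      rw [hg, hg]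
      exact hxy
    have h3 := no_involution h hinv hc (f s)
    rw [hh] at h3
    exact h3
  let F : (Fin d → ℕ) → ℕ := fun s => if hs : s ∈ D then (f ⟨s, hs⟩).a + 1 else 0
  have hF : ∀ i j, i ∉ A → j ∉ A → ∀ s, F (fun k => Equiv.swap i j (s k)) = F s := by
    intro i j hi hj s
    have hτ : ∀ a ∈ A, Equiv.swap i j a = a := fun a ha =>
      Equiv.swap_apply_of_ne_of_ne (fun h => hi (h ▸ ha)) (fun h => hj (h ▸ ha))
    by_cases hs : s ∈ D
    · have hs' := hDi _ hτ s hs
      change (if hs : (fun k => Equiv.swap i j (s k)) ∈ D then (f ⟨_, hs⟩).a + 1 else 0) =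
        if hs : s ∈ D then (f ⟨s, hs⟩).a + 1 else 0
      rw [dif_pos hs, dif_pos hs', hswap i j hi hj ⟨s, hs⟩ hs']
    · have hs' : (fun k => Equiv.swap i j (s k)) ∉ D := fun h =>
        hs ((inv_of_definable hD _ hτ s).1 h)
      change (if hs : (fun k => Equiv.swap i j (s k)) ∈ D then (f ⟨_, hs⟩).a + 1 else 0) =
        if hs : s ∈ D then (f ⟨s, hs⟩).a + 1 else 0
      rw [dif_neg hs, dif_neg hs']
  have hfin := finite_range A hA F hF
  have hinf : (Set.range fun n : ℕ => n + 1) ⊆ Set.range F := by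
    rintro _ ⟨n, rfl⟩
    let x : Om := ⟨n, n + 1, 0, 1, 0, by omega, by norm_num⟩
    refine ⟨(g x).1, ?_⟩
    change (if hs : (g x).1 ∈ D then (f ⟨(g x).1, hs⟩).a + 1 else 0) = n + 1
    rw [dif_pos (g x).2]
    have h1 : f ⟨(g x).1, (g x).2⟩ = x := hg x
    rw [h1]
  exact Set.infinite_range_of_injective (fun a b h => Nat.succ_injective h) (hfin.subset hinf)

/-! ### The theorem -/

instance : Countable Om := by
  have : Injective fun x : Om => (x.a, x.b, x.m, x.n, x.z) := by
    intro x y h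
    simp only [Prod.mk.injEq] at h
    exact Om.ext h.1 h.2.1 h.2.2.1 h.2.2.2.1 h.2.2.2.2
  exact this.countable

instance : Nonempty Om := ⟨⟨0, 1, 0, 1, 0, by norm_num, by norm_num⟩⟩

instance : Nonempty OA := ⟨⟨0, 1, 0, 1, true, 0, by norm_num, by norm_num⟩⟩

theorem finite_symbols : Finite (Σ n, LK.Relations n) :=
  Finite.of_surjective (fun p : K × Bool => (⟨2, sym p.1 p.2⟩ : Σ n, LK.Relations n)) (by
    rintro ⟨_, ⟨c, b⟩⟩
    exact ⟨(c, b), rfl⟩)

/-- **The class of structures interpretable over equality is not closed under model companions and not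
closed under model-complete cores (finite relational languages).** -/
theorem result : ∃ (L : FirstOrder.Language.{0, 0}) (_ : L.IsRelational) (𝔄 𝔅 : Type)
    (_ : L.Structure 𝔄) (_ : L.Structure 𝔅), Finite (Σ n, L.Relations n) ∧ Countable 𝔅 ∧
      InterpretableOverEquality L 𝔄 ∅ ∧
      IsModelCompanion.{w} (L.completeTheory 𝔄) (L.completeTheory 𝔅) ∧
      IsModelCompleteCore L 𝔅 ∧ Nonempty (𝔄 →[L] 𝔅) ∧ Nonempty (𝔅 →[L] 𝔄) ∧
      ∀ A : Set ℕ, A.Finite → ¬ InterpretableOverEquality L 𝔅 A := by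
  refine ⟨LK, inferInstance, OA, Om, strA, strB, finite_symbols, inferInstance, interp_A,
    ⟨modelComplete_B, ?_, ?_⟩,
    core_B, ⟨(embOf eAB_hom).toHom⟩, ⟨(embOf eBA_hom).toHom⟩, not_interp_B⟩
  · intro M _ hM
    exact exists_embedding (embOf eAB_hom) M hM
  · intro M _ hM
    exact exists_embedding (embOf eBA_hom) M hM

end Pool.Agent.Results.MP_e44c77_lc.NotClosed
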